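import Pool.Agent.H21.PI.Alt

/-!
# Prime counts in intervals of logarithmic length: the set of exceptional values (MP_76b9e7_nt)

If `gamma_j(n)` fails to converge for some `j`, then it fails for at least three `j`.
-/

set_option autoImplicit false

open Finset Filter Topology

namespace Pool.Agent.H82.Kept.ExceptionalValues76b9

/-- The number of primes in the interval `I_k`, from `k` to `k + 1 + floor (log k)`. -/
noncomputable def X (k : ℕ) : ℕ :=
  ((Icc k (k + 1 + ⌊Real.log (k : ℝ)⌋₊)).filter Nat.Prime).card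

/-- `gamma_j(n)`: the proportion of the `k` with `1 <= k <= n` for which `I_k` contains exactly
`j` primes. -/
noncomputable def gam (j n : ℕ) : ℝ :=
  ((((Icc 1 n).filter (fun k : ℕ => X k = j)).card : ℕ) : ℝ) / n

/-- `gamma_j(n)` converges. -/
def Conv (j : ℕ) : Prop := ∃ L : ℝ, Tendsto (gam j) atTop (𝓝 L)

/-- The average over `1 <= k <= n` of the number of sets of `r` primes in `I_k`. -/
noncomputable def tup (r n : ℕ) : ℝ := ((∑ k ∈ Icc 1 n, (X k).choose r : ℕ) : ℝ) / n

/-- These averages converge. -/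
def ConvT (r : ℕ) : Prop := ∃ L : ℝ, Tendsto (tup r) atTop (𝓝 L)

/-- The oscillation of `gamma_j(n)`. -/
noncomputable def osc (j : ℕ) : ℝ := limsup (gam j) atTop - liminf (gam j) atTop

/-- The limit laws: the limit points, as `n` tends to infinity, of the sequence of the vectors
`(gamma_j(n))_(j >= 0)`, for coordinatewise convergence. -/
def LimitLaws : Set (ℕ → ℝ) := {g | MapClusterPt g atTop (fun (n : ℕ) (j : ℕ) => gam j n)}

theorem result :
    (∀ s : ℕ, (∀ r : ℕ, 2 ≤ r → r < s → ConvT r) →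
      {j : ℕ | ¬ Conv j} = ∅ ∨ (s : ℕ∞) < {j : ℕ | ¬ Conv j}.encard) ∧
    (∀ a b : ℕ, ENNReal.ofReal (|(a : ℝ) - b| * osc a) ≤
      ∑' j : ℕ, if j = a ∨ j = b then 0 else ENNReal.ofReal (|(j : ℝ) - b| * osc j)) ∧
    (∀ g ∈ LimitLaws, ∀ g' ∈ LimitLaws, g ≠ g' → ∃ a b c : ℕ, a < b ∧ b < c ∧
      ((g' a < g a ∧ g b < g' b ∧ g' c < g c) ∨ (g a < g' a ∧ g' b < g b ∧ g c < g' c))) :=
  ⟨fun s hs => Pool.Agent.H21.PI.none_or_many s hs,
    fun a b => Pool.Agent.H21.PI.osc_ineq a b,
    fun _ hg _ hg' h => Pool.Agent.H21.PI.alternate hg hg' h⟩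

end Pool.Agent.H82.Kept.ExceptionalValues76b9
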