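import Pool.Agent.H84.BR.ClaimDefs
import Pool.Agent.H88.FD.Final

set_option autoImplicit false

namespace Pool.Agent.Results.MP_ee74d2_an.FrostmanData

open MeasureTheory Set SchwartzMap FourierTransform Pool.Agent.H84.BR.CD
open scoped NNReal ENNReal

/-- weights of dimension `α` at scale `1/λ`: measurable, `0 < v ≤ 1`, and
`∫_{B(x,ρ)} v ≤ λ^{α-d} ρ^α` for all `x` and `1/λ ≤ ρ ≤ 1` -/
def IsWeight {d : ℕ} (α lam : ℝ) (v : EE d → ℝ) : Prop :=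
  Measurable v ∧ (∀ x, 0 < v x ∧ v x ≤ 1) ∧ ∀ (x : EE d) (ρ : ℝ), lam⁻¹ ≤ ρ → ρ ≤ 1 →
    ∫⁻ y in Metric.closedBall x ρ, ENNReal.ofReal (v y) ≤
      ENNReal.ofReal (lam ^ (α - (d : ℝ)) * ρ ^ α)

/-- the norm `(∫ |f|^p v^{1-p})^{1/p}` -/
noncomputable def wNorm {d : ℕ} (p : ℝ) (v : EE d → ℝ) (f : EE d → ℂ) : ℝ≥0∞ :=
  (∫⁻ x, ‖f x‖ₑ ^ p * ENNReal.ofReal (v x) ^ (1 - p)) ^ (1 / p)

/-- The inequality of Q1, with the full gain, for data of frequencies `≤ λ` near sets of dimension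
`α`: `d ≥ 3`, `0 < α ≤ d - 2/3`, `p ≥ p_d`, `p ≥ 2 + 8/(3(2d-1-α) + max(0,d-1-α))`, `σ < 1/p`. The
constant does not depend on `λ` and the weight. -/
theorem result (d : ℕ) (hd : 3 ≤ d) (α p σ : ℝ) (hα : 0 < α) (hα' : α ≤ (d : ℝ) - 2 / 3)
    (hp : 2 * (d : ℝ) / ((d : ℝ) - 1) ≤ p)
    (hp' : 2 + 8 / (3 * (2 * (d : ℝ) - 1 - α) + max 0 ((d : ℝ) - 1 - α)) ≤ p)
    (hσ : σ < 1 / p) :
    ∃ C : ℝ≥0, ∀ (lam : ℝ) (v : EE d → ℝ) (u₀ u₁ : 𝓢(EE d, ℂ)), 1 ≤ lam → IsWeight α lam v →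
      (∀ ξ, lam < ‖ξ‖ → 𝓕 (u₀ : EE d → ℂ) ξ = 0 ∧ 𝓕 (u₁ : EE d → ℂ) ξ = 0) →
      solNorm p u₀ u₁ ≤
        C * (wNorm p v (besS (((d : ℝ) - 1) * (1 / 2 - 1 / p) - σ) u₀) +
          wNorm p v (besS (((d : ℝ) - 1) * (1 / 2 - 1 / p) - 1 - σ) u₁)) := by
  obtain ⟨C, hC⟩ := Pool.Agent.H88.FD.fd d α p σ hd hα hα' hp hp' hσ
  exact ⟨C, fun lam v u₀ u₁ hl hv hu => hC lam v u₀ u₁ hl hv.1 hv.2.1 hv.2.2 hu⟩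

end Pool.Agent.Results.MP_ee74d2_an.FrostmanData
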