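import Pool.Agent.H84.BR.ClaimDefs
import Pool.Agent.H82.HD.All

set_option autoImplicit false

namespace Pool.Agent.Results.MP_ee74d2_an.HighDimensions

open MeasureTheory Set SchwartzMap Pool.Agent.H84.BR.CD
open scoped NNReal ENNReal

/-- The inequality of Q1, for all data and with the full gain, in all high dimensions `d` and for
all exponents `p ≥ 2 + c₀/(d - 1)`, with one constant `c₀ < 8/3`. -/
theorem result : ∃ (d₀ : ℕ) (c₀ : ℝ), c₀ < 8 / 3 ∧ ∀ (d : ℕ) (p σ : ℝ), d₀ ≤ d →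
    2 + c₀ / ((d : ℝ) - 1) ≤ p → σ < 1 / p →
    ∃ C : ℝ≥0, ∀ u₀ u₁ : 𝓢(EE d, ℂ), solNorm p u₀ u₁ ≤ C * datN p σ u₀ u₁ := by
  obtain ⟨m₀, s, hs0, -, hm₀, h⟩ := Pool.Agent.H82.HD.All.main
  refine ⟨m₀ + 1, 8 / 3 - s, by linarith, fun d p σ hd hp hσ => ?_⟩
  obtain ⟨n, rfl⟩ : ∃ n : ℕ, d = n + 1 := ⟨d - 1, by omega⟩
  have h1 : (((n + 1 : ℕ) : ℝ) - 1) = n := by push_cast; ring
  rw [h1] at hp
  exact h n p (by omega) hp σ hσ

end Pool.Agent.Results.MP_ee74d2_an.HighDimensions
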