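import Pool.Agent.H31.MP.All

/-!
# MP_76b9e7_nt: a positive proportion of the intervals contain exactly `j` primes, `j ≥ 3`

For every `j ≥ 3` the lower limit of `gamma_j(n)` is positive.
-/

set_option autoImplicit false

open Finset

namespace Pool.Agent.H82.Kept.PositiveProportion76b9

/-- The number of primes in the interval `I_k`, from `k` to `k + 1 + floor (log k)`. -/
noncomputable def X (k : ℕ) : ℕ :=
  ((Icc k (k + 1 + ⌊Real.log (k : ℝ)⌋₊)).filter Nat.Prime).card

/-- `gamma_j(n)`: the proportion of the `k` with `1 <= k <= n` for which `I_k` contains exactly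
`j` primes. -/
noncomputable def gam (j n : ℕ) : ℝ :=
  ((((Icc 1 n).filter (fun k : ℕ => X k = j)).card : ℕ) : ℝ) / n

theorem result : ∀ j : ℕ, 3 ≤ j → ∃ c : ℝ, 0 < c ∧ ∃ n₀ : ℕ, ∀ n : ℕ, n₀ ≤ n → c ≤ gam j n :=
  Pool.Agent.H31.MP.All.tFI

end Pool.Agent.H82.Kept.PositiveProportion76b9
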